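import Pool.Agent.N478.LT.StepA

/-!
# LT/STEP: one step of the forcing process
-/

set_option autoImplicit false
set_option linter.all false

namespace Pool.Agent.N478.LT

open MvPolynomial Finset Pool.Agent.Helper929 Pool.Agent.H604R2.LEC Pool.Agent.Y819.ZF
  Pool.Agent.Y819.ZF.RelM Pool.Agent.N343.LT

section

variable {R : Type} [CommRing R] {n : ℕ}

/-- products over the pairs between the range of `f` and `W` -/
theorem GP_bip {l : ℕ} (f : Fin l → Fin n) (hf : Function.Injective f) (W : Finset (Fin n))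
    (M : Fin n → ℕ) (h : ∀ a, ∀ w ∈ W, f a < w) (μ : Fin n → Fin n → ℕ)
    (h1 : ∀ a, ∀ w ∈ W, μ (f a) w = M w) (h2 : ∀ i j, i < j → ¬ ((∃ a, f a = i) ∧ j ∈ W) →
      μ i j = 0) :
    GP R μ = ∏ a, ∏ w ∈ W, (X (f a) - X w) ^ M w := by
  unfold GP
  rw [← prod_image (s := univ) (g := f) (f := fun i => ∏ w ∈ W, ((X i : MvPolynomial (Fin n) R) - X w) ^ M w)
    (fun a _ b _ h => hf h)]
  symm
  refine prod_subset_one_on_sdiff (subset_univ _) (fun i hi => ?_) (fun i hi => ?_)
  · rw [mem_sdiff, mem_image] at hi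
    refine prod_eq_one fun j _ => ?_
    split_ifs with hij
    · rw [h2 i j hij (fun h3 => hi.2 (by
        obtain ⟨⟨a, ha⟩, -⟩ := h3
        exact ⟨a, mem_univ _, ha⟩)), pow_zero]
    · rfl
  · rw [mem_image] at hi
    obtain ⟨a, -, rfl⟩ := hi
    refine prod_subset_one_on_sdiff (subset_univ _) (fun j hj => ?_) (fun j hj => ?_)
    · rw [mem_sdiff] at hj
      split_ifs with hij
      · rw [h2 _ j hij (fun h3 => hj.2 h3.2), pow_zero]
      · rfl
    · rw [if_pos (h a j hj), h1 a j hj]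

/-- the Vandermonde product -/
theorem GP_vd {l : ℕ} (f : Fin l → Fin n) (hf : StrictMono f) (μ : Fin n → Fin n → ℕ)
    (h1 : ∀ a b, a < b → μ (f a) (f b) = 1)
    (h2 : ∀ i j, i < j → ¬ ((∃ a, f a = i) ∧ ∃ b, f b = j) → μ i j = 0) :
    GP R μ = vd R f := by
  unfold GP vd
  rw [← prod_image (s := univ) (g := f) (f := fun i => ∏ b, if i < f b then
    ((X i : MvPolynomial (Fin n) R) - X (f b)) else 1) (fun a _ b _ h => hf.injective h) |>.trans
    (prod_congr rfl fun a _ => prod_congr rfl fun b _ => by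
      by_cases h : a < b
      · rw [if_pos h, if_pos (hf h)]
      · rw [if_neg h, if_neg (fun h' => h (hf.lt_iff_lt.mp h'))])]
  symm
  refine prod_subset_one_on_sdiff (subset_univ _) (fun i hi => ?_) (fun i hi => ?_)
  · rw [mem_sdiff, mem_image] at hi
    refine prod_eq_one fun j _ => ?_
    split_ifs with hij
    · rw [h2 i j hij (fun h3 => hi.2 (by
        obtain ⟨⟨a, ha⟩, -⟩ := h3
        exact ⟨a, mem_univ _, ha⟩)), pow_zero]
    · rfl
  · rw [mem_image] at hi
    obtain ⟨a, -, rfl⟩ := hi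
    rw [← prod_image (s := univ) (g := f) (f := fun j => if f a < j then
      ((X (f a) : MvPolynomial (Fin n) R) - X j) else 1) (fun a _ b _ h => hf.injective h)]
    refine prod_subset_one_on_sdiff (subset_univ _) (fun j hj => ?_) (fun j hj => ?_)
    · rw [mem_sdiff, mem_image] at hj
      split_ifs with hij
      · rw [h2 _ j hij (fun h3 => hj.2 (by
          obtain ⟨-, ⟨b, hb⟩⟩ := h3
          exact ⟨b, mem_univ _, hb⟩)), pow_zero]
      · rfl
    · rw [mem_image] at hj
      obtain ⟨b, -, rfl⟩ := hj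
      split_ifs with hij
      · rw [h1 a b (hf.lt_iff_lt.mp hij), pow_one]
      · rfl

/-- the cells `s, ..., s + l - 1` -/
def iv (s l : ℕ) (h : s + l ≤ n) : Fin l → Fin n := fun a => ⟨s + a, by omega⟩

theorem iv_mono (s l : ℕ) (h : s + l ≤ n) : StrictMono (iv s l h) := by
  intro a b hab
  show s + (a : ℕ) < s + (b : ℕ)
  have : (a : ℕ) < b := hab
  omega

theorem iv_mem (s l : ℕ) (h : s + l ≤ n) (i : Fin n) :
    (∃ a, iv s l h a = i) ↔ s ≤ i.val ∧ i.val < s + l := by
  constructor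
  · rintro ⟨a, rfl⟩
    show s ≤ s + (a : ℕ) ∧ s + (a : ℕ) < s + l
    omega
  · rintro ⟨h1, h2⟩
    refine ⟨⟨i.val - s, by omega⟩, Fin.ext ?_⟩
    show s + (i.val - s) = i.val
    omega

theorem iv_val (s l : ℕ) (h : s + l ≤ n) (a : Fin l) : (iv s l h a).val = s + a := rfl

end

/-- LT/STEP -/
theorem main (hKEY : S_KEY) : S_STEP := by
  intro p hp m k N x hm hk hx hmp hcl
  obtain ⟨v, hv⟩ : ∃ v, v = k * (N + 2) := ⟨_, rfl⟩
  obtain ⟨K1, hK1⟩ : ∃ K1, K1 = k * (N + 1) := ⟨_, rfl⟩
  have hvK : v = K1 + k := by rw [hv, hK1]; ring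
  have hK1k : K1 = k * N + k := by rw [hK1]; ring
  have hxK : x + k < K1 := by omega
  -- lengths
  obtain ⟨l, hl⟩ : ∃ l, l = m * (k * N - x - 1) := ⟨_, rfl⟩
  have hls : m * (x + 1 + k) + l = m * K1 := by
    rw [hl, ← Nat.mul_add]
    congr 1
    omega
  have hmv : m * K1 ≤ m * v := Nat.mul_le_mul_left m (by omega)
  have hxs : m * x + m ≤ m * v := by
    have : m * (x + 1) ≤ m * v := Nat.mul_le_mul_left m (by omega)
    rw [Nat.mul_succ] at this
    exact this
  have hus : m * (x + k) + m ≤ m * v := by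
    have : m * (x + k + 1) ≤ m * v := Nat.mul_le_mul_left m (by omega)
    rw [Nat.mul_succ] at this
    exact this
  have hys : m * (x + 1 + k) + l ≤ m * v := by omega
  have hms1 : m * x + m ≤ m * (x + k) := by
    have : m * (x + 1) ≤ m * (x + k) := Nat.mul_le_mul_left m (by omega)
    rw [Nat.mul_succ] at this
    exact this
  have hms2 : m * (x + k) + m = m * (x + 1 + k) := by
    rw [show x + 1 + k = x + k + 1 by ring, Nat.mul_succ]
  have hmlp : m + l < p := by
    have h1 : m + l = m * (k * N - x) := by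
      have h0 : k * N - x = (k * N - x - 1) + 1 := by omega
      rw [hl]
      conv_rhs => rw [h0]
      rw [Nat.mul_succ, add_comm]
    rw [h1]
    exact lt_of_le_of_lt (Nat.mul_le_mul_left m (by omega)) hmp
  -- clusters
  have cx : ∀ i : ℕ, (m * x ≤ i ∧ i < m * x + m) ↔ i / m = x := by
    intro i
    rw [← Nat.mul_succ, le_iff hm, lt_iff hm]
    omega
  have cu : ∀ i : ℕ, (m * (x + k) ≤ i ∧ i < m * (x + k) + m) ↔ i / m = x + k := by
    intro i
    rw [← Nat.mul_succ, le_iff hm, lt_iff hm]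
    omega
  have cy : ∀ i : ℕ, (m * (x + 1 + k) ≤ i ∧ i < m * (x + 1 + k) + l) ↔
      (x + k < i / m ∧ i / m < K1) := by
    intro i
    rw [hls, le_iff hm, lt_iff hm]
    omega
  unfold Claim at hcl ⊢
  rw [← hv, ← hK1] at hcl ⊢
  -- the maps
  obtain ⟨xx, hxx⟩ : ∃ f : Fin m → Fin (m * v), f = iv (m * x) m hxs := ⟨_, rfl⟩
  obtain ⟨uu, huu⟩ : ∃ f : Fin m → Fin (m * v), f = iv (m * (x + k)) m hus := ⟨_, rfl⟩
  obtain ⟨yy, hyy⟩ : ∃ f : Fin l → Fin (m * v), f = iv (m * (x + 1 + k)) l hys := ⟨_, rfl⟩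
  have mx : ∀ i : Fin (m * v), (∃ a, xx a = i) ↔ i.val / m = x := by
    intro i
    rw [hxx, iv_mem, cx]
  have mu : ∀ i : Fin (m * v), (∃ a, uu a = i) ↔ i.val / m = x + k := by
    intro i
    rw [huu, iv_mem, cu]
  have my : ∀ i : Fin (m * v), (∃ a, yy a = i) ↔ (x + k < i.val / m ∧ i.val / m < K1) := by
    intro i
    rw [hyy, iv_mem, cy]
  have ix : ∀ a, (xx a).val / m = x := fun a => (mx _).mp ⟨a, rfl⟩
  have iu : ∀ a, (uu a).val / m = x + k := fun a => (mu _).mp ⟨a, rfl⟩
  have iy : ∀ b, x + k < (yy b).val / m ∧ (yy b).val / m < K1 := fun b => (my _).mp ⟨b, rfl⟩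
  have sx : StrictMono xx := hxx ▸ iv_mono _ _ _
  have su : StrictMono uu := huu ▸ iv_mono _ _ _
  have sy : StrictMono yy := hyy ▸ iv_mono _ _ _
  -- order from clusters
  have ord : ∀ i j : Fin (m * v), i.val / m < j.val / m → i < j := by
    intro i j hij
    by_contra hcon
    have h1 : j.val ≤ i.val := not_lt.mp hcon
    have := Nat.div_le_div_right (c := m) h1
    omega
  obtain ⟨W, hW⟩ : ∃ W : Finset (Fin (m * v)), W = univ.filter (fun w => K1 ≤ w.val / m) :=
    ⟨_, rfl⟩
  have mW : ∀ w : Fin (m * v), w ∈ W ↔ K1 ≤ w.val / m := by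
    intro w
    rw [hW, mem_filter]
    exact ⟨fun h => h.2, fun h => ⟨mem_univ _, h⟩⟩
  obtain ⟨M, hM⟩ : ∃ M : Fin (m * v) → ℕ, ∀ w, M w = chM k N (x + k) (w.val / m - K1) :=
    ⟨_, fun _ => rfl⟩
  have hsum : ∑ w ∈ W, M w ≤ l := by
    have h1 : ∑ w ∈ W, M w = ∑ t ∈ range (m * v),
        if K1 ≤ t / m then chM k N (x + k) (t / m - K1) else 0 := by
      rw [hW, sum_filter, ← Fin.sum_univ_eq_sum_range
        (fun t => if K1 ≤ t / m then chM k N (x + k) (t / m - K1) else 0)]
      refine sum_congr rfl fun w _ => ?_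
      rw [hM]
    rw [h1, sum_div (fun a => if K1 ≤ a then chM k N (x + k) (a - K1) else 0) hm, hvK,
      sum_range_add]
    have h2 : ∑ a ∈ range K1, (if K1 ≤ a then chM k N (x + k) (a - K1) else 0) = 0 := by
      refine sum_eq_zero fun a ha => ?_
      rw [mem_range] at ha
      rw [if_neg (by omega)]
    have h3 : ∑ a ∈ range k, (if K1 ≤ K1 + a then chM k N (x + k) (K1 + a - K1) else 0) =
        ∑ a ∈ range k, chM k N (x + k) a := by
      refine sum_congr rfl fun a _ => ?_
      rw [if_pos (Nat.le_add_right _ _), Nat.add_sub_cancel_left]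
    rw [h2, h3, sum_chM hk hx, zero_add, hl]
  -- the key statement
  have hkey := hKEY p (Fin (m * v)) m l xx uu yy W M hmlp (by
      intro a b hab
      rcases a with a | a | a <;> rcases b with b | b | b <;> simp only [Sum.elim_inl, Sum.elim_inr] at hab
      · rw [sx.injective hab]
      · have h1 := ix a; have h2 := iu b
        rw [hab] at h1; omega
      · have h1 := ix a; have h2 := iy b
        rw [hab] at h1; omega
      · have h1 := iu a; have h2 := ix b
        rw [hab] at h1; omega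
      · rw [su.injective hab]
      · have h1 := iu a; have h2 := iy b
        rw [hab] at h1; omega
      · have h1 := iy a; have h2 := ix b
        rw [hab] at h1; omega
      · have h1 := iy a; have h2 := iu b
        rw [hab] at h1; omega
      · rw [sy.injective hab]) (by
      intro w hw
      rw [mW] at hw
      constructor
      · rintro ⟨a, rfl⟩
        have := iu a
        omega
      · rintro ⟨a, rfl⟩
        have := iy a
        omega) hsum
  -- the four products
  have bxy : ∀ (μ : Fin (m * v) → Fin (m * v) → ℕ) (z : Fin m → Fin (m * v)) (c : ℕ)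
      (hz : StrictMono z) (hc : ∀ i : Fin (m * v), (∃ a, z a = i) ↔ i.val / m = c) (hc2 : c ≤ x + k),
      (∀ i j, μ i j = if i.val / m = c ∧ (x + k < j.val / m ∧ j.val / m < K1) then 1 else 0) →
      GP (ZMod p) μ = ∏ a, ∏ b, (X (z a) - X (yy b)) := by
    intro μ z c hz hc hc2 hμ
    rw [GP_bip z hz.injective (univ.image yy) (fun _ => 1) ?_ μ ?_ ?_]
    · refine prod_congr rfl fun a _ => ?_
      rw [prod_image (fun a _ b _ h => sy.injective h)]
      exact prod_congr rfl fun b _ => pow_one _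
    · intro a w hw
      rw [mem_image] at hw
      obtain ⟨b, -, rfl⟩ := hw
      apply ord
      have h1 := (hc (z a)).mp ⟨a, rfl⟩
      have h2 := iy b
      omega
    · intro a w hw
      rw [mem_image] at hw
      obtain ⟨b, -, rfl⟩ := hw
      rw [hμ, if_pos ⟨(hc (z a)).mp ⟨a, rfl⟩, iy b⟩]
    · intro i j _ hij
      rw [hμ, if_neg]
      rintro ⟨h1, h2⟩
      apply hij
      refine ⟨(hc i).mpr h1, ?_⟩
      rw [mem_image]
      obtain ⟨b, hb⟩ := (my j).mpr h2
      exact ⟨b, mem_univ _, hb⟩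
  have bxw : ∀ (μ : Fin (m * v) → Fin (m * v) → ℕ) (z : Fin m → Fin (m * v)) (c : ℕ)
      (hz : StrictMono z) (hc : ∀ i : Fin (m * v), (∃ a, z a = i) ↔ i.val / m = c) (hc2 : c ≤ x + k),
      (∀ i j, μ i j = if i.val / m = c ∧ K1 ≤ j.val / m then
        chM k N (x + k) (j.val / m - K1) else 0) →
      GP (ZMod p) μ = ∏ a, ∏ w ∈ W, (X (z a) - X w) ^ M w := by
    intro μ z c hz hc hc2 hμ
    rw [GP_bip z hz.injective W M ?_ μ ?_ ?_]
    · intro a w hw
      apply ord
      have h1 := (hc (z a)).mp ⟨a, rfl⟩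
      have h2 := (mW w).mp hw
      omega
    · intro a w hw
      rw [hμ, if_pos ⟨(hc (z a)).mp ⟨a, rfl⟩, (mW w).mp hw⟩, hM]
    · intro i j _ hij
      rw [hμ, if_neg]
      rintro ⟨h1, h2⟩
      exact hij ⟨(hc i).mpr h1, (mW j).mpr h2⟩
  have bvu : GP (ZMod p) (fun i j : Fin (m * v) =>
      if i.val / m = x + k ∧ j.val / m = x + k then 1 else 0) = vd (ZMod p) uu := by
    refine GP_vd uu su _ (fun a b _ => ?_) (fun i j _ hij => ?_)
    · rw [if_pos ⟨iu a, iu b⟩]
    · rw [if_neg (fun h => hij ⟨(mu i).mpr h.1, (mu j).mpr h.2⟩)]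
  have bvy : GP (ZMod p) (fun i j : Fin (m * v) =>
      if (x + k < i.val / m ∧ i.val / m < K1) ∧ (x + k < j.val / m ∧ j.val / m < K1) then 1
        else 0) = vd (ZMod p) yy := by
    refine GP_vd yy sy _ (fun a b _ => ?_) (fun i j _ hij => ?_)
    · rw [if_pos ⟨iy a, iy b⟩]
    · rw [if_neg (fun h => hij ⟨(my i).mpr h.1, (my j).mpr h.2⟩)]
  have eT : GP (ZMod p) (fun i j : Fin (m * v) => TC k N x (i.val / m) (j.val / m)) =
      vd (ZMod p) uu * vd (ZMod p) yy * (∏ a, ∏ b, (X (xx a) - X (yy b))) *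
        (∏ a, ∏ w ∈ W, (X (uu a) - X w) ^ M w) := by
    unfold TC
    rw [← hK1, GP_add, GP_add, GP_add, bvu, bvy, bxy _ xx x sx mx (by omega) fun _ _ => rfl,
      bxw _ uu (x + k) su mu le_rfl fun _ _ => rfl]
  have eG : GP (ZMod p) (fun i j : Fin (m * v) => TG k N x (i.val / m) (j.val / m)) =
      vd (ZMod p) uu * vd (ZMod p) yy * (∏ a, ∏ b, (X (uu a) - X (yy b))) *
        (∏ a, ∏ w ∈ W, (X (xx a) - X w) ^ M w) := by
    unfold TG
    rw [← hK1, GP_add, GP_add, GP_add, bvu, bvy, bxy _ uu (x + k) su mu le_rfl fun _ _ => rfl,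
      bxw _ xx x sx mx (by omega) fun _ _ => rfl]
  rw [← eT, ← eG] at hkey
  -- the sets
  have hZ : (Set.range uu ∪ Set.range yy : Set (Fin (m * v))) =
      {i : Fin (m * v) | m * (x + k) ≤ i.val ∧ i.val < m * K1} := by
    ext i
    rw [Set.mem_union, Set.mem_range, Set.mem_range, mu, my, Set.mem_setOf_eq, le_iff hm,
      lt_iff hm]
    omega
  rw [hZ] at hkey
  -- clusters of the cells
  have hcell : ∀ i j : Fin (m * v), i < j → i.val / m ≤ j.val / m ∧ j.val / m < v := by
    intro i j hij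
    refine ⟨Nat.div_le_div_right (le_of_lt hij), ?_⟩
    rw [Nat.div_lt_iff_lt_mul hm, mul_comm v m]
    exact j.isLt
  -- first part
  have hA : GP (ZMod p) (fun i j : Fin (m * v) => AC k N x (i.val / m) (j.val / m)) *
      GP (ZMod p) (fun i j : Fin (m * v) => Qst m k N (x + 1) i j) ∈
      WZ (ZMod p) {i : Fin (m * v) | m * (x + 1 + k) ≤ i.val ∧ i.val < m * K1}
      (GP (ZMod p) (fun i j : Fin (m * v) => AC k N x (i.val / m) (j.val / m)) *
        GP (ZMod p) (fun i j : Fin (m * v) => Pst m k N (x + 1) i j)) := by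
    refine WZ_mul _ (fun σ hσ => ?_) hcl
    have hA1 : ∀ i j : Fin (m * v), i < j → AC k N x (i.val / m) (j.val / m) ≠ 0 →
        i.val / m = x := by
      intro i j _ h
      by_contra hcon
      apply h
      unfold AC
      rw [if_neg hcon]
    have hA2 : ∀ i j : Fin (m * v), i.val / m = x → x + k < j.val / m → j.val / m < K1 →
        AC k N x (i.val / m) (j.val / m) = 1 := by
      intro i j h1 h2 h3
      unfold AC
      rw [if_pos h1, h1, if_neg (by omega)]
      unfold eC
      rw [← hv, if_pos]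
      omega
    have gen : ∀ τ : Equiv.Perm (Fin (m * v)),
        (∀ i, i ∉ {i : Fin (m * v) | m * (x + 1 + k) ≤ i.val ∧ i.val < m * K1} → τ i = i) →
        ∀ i j : Fin (m * v), i < j → AC k N x (i.val / m) (j.val / m) ≠ 0 →
          τ i < τ j ∧ AC k N x ((τ i).val / m) ((τ j).val / m) =
            AC k N x (i.val / m) (j.val / m) := by
      intro τ hτ i j hij h
      have h1 := hA1 i j hij h
      have h2 : τ i = i := by
        apply hτ
        rw [Set.mem_setOf_eq, le_iff hm, lt_iff hm]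
        omega
      rw [h2]
      by_cases h3 : j ∈ {i : Fin (m * v) | m * (x + 1 + k) ≤ i.val ∧ i.val < m * K1}
      · have h4 : τ j ∈ {i : Fin (m * v) | m * (x + 1 + k) ≤ i.val ∧ i.val < m * K1} := by
          by_contra hcon
          have h5 := hτ _ hcon
          have h6 := τ.injective h5
          rw [h6] at hcon
          exact hcon h3
        rw [Set.mem_setOf_eq, le_iff hm, lt_iff hm] at h3 h4
        refine ⟨ord _ _ (by omega), ?_⟩
        rw [hA2 i (τ j) h1 (by omega) h4.2, hA2 i j h1 (by omega) h3.2]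
      · rw [hτ j h3]
        exact ⟨hij, rfl⟩
    refine GP_inv _ σ (gen σ hσ) (gen σ.symm fun i hi => ?_)
    rw [Equiv.symm_apply_eq]
    exact (hσ i hi).symm
  have e1 : GP (ZMod p) (fun i j : Fin (m * v) => Pst m k N x i j) =
      GP (ZMod p) (fun i j : Fin (m * v) => AC k N x (i.val / m) (j.val / m)) *
        GP (ZMod p) (fun i j : Fin (m * v) => Pst m k N (x + 1) i j) := by
    refine GP_mul fun i j hij => ?_
    rw [Pst_eq hm, Pst_eq hm]
    exact id1 (hcell i j hij).1
  have e2 : GP (ZMod p) (fun i j : Fin (m * v) => AC k N x (i.val / m) (j.val / m)) *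
      GP (ZMod p) (fun i j : Fin (m * v) => Qst m k N (x + 1) i j) =
      GP (ZMod p) (fun i j : Fin (m * v) => EC k N x (i.val / m) (j.val / m)) *
      GP (ZMod p) (fun i j : Fin (m * v) => TC k N x (i.val / m) (j.val / m)) := by
    rw [← GP_add, ← GP_add]
    refine GP_congr fun i j hij => ?_
    rw [Qst_eq hm]
    obtain ⟨h1, h2⟩ := hcell i j hij
    exact id2 hk hx h1 (lt_of_lt_of_eq h2 hv)
  have e3 : GP (ZMod p) (fun i j : Fin (m * v) => Qst m k N x i j) =
      GP (ZMod p) (fun i j : Fin (m * v) => EC k N x (i.val / m) (j.val / m)) *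
      GP (ZMod p) (fun i j : Fin (m * v) => TG k N x (i.val / m) (j.val / m)) := by
    refine GP_mul fun i j hij => ?_
    rw [Qst_eq hm]
    obtain ⟨h1, h2⟩ := hcell i j hij
    exact (id3 hk hx h1 (lt_of_lt_of_eq h2 hv)).symm
  rw [← e1, e2] at hA
  have hA' := WZ_mono (Z' := {i : Fin (m * v) | m * (x + k) ≤ i.val ∧ i.val < m * K1}) (by
    intro i hi
    rw [Set.mem_setOf_eq] at hi ⊢
    refine ⟨le_trans (Nat.mul_le_mul_left m (by omega)) hi.1, hi.2⟩) _ hA
  -- second part
  have hB : GP (ZMod p) (fun i j : Fin (m * v) => EC k N x (i.val / m) (j.val / m)) *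
      GP (ZMod p) (fun i j : Fin (m * v) => TG k N x (i.val / m) (j.val / m)) ∈
      WZ (ZMod p) {i : Fin (m * v) | m * (x + k) ≤ i.val ∧ i.val < m * K1}
      (GP (ZMod p) (fun i j : Fin (m * v) => EC k N x (i.val / m) (j.val / m)) *
        GP (ZMod p) (fun i j : Fin (m * v) => TC k N x (i.val / m) (j.val / m))) := by
    refine WZ_mul _ (fun σ hσ => ?_) hkey
    have hE1 : ∀ i j : Fin (m * v), i < j → EC k N x (i.val / m) (j.val / m) ≠ 0 →
        (i.val / m < x + k ∨ K1 ≤ i.val / m) ∧ (j.val / m < x + k ∨ K1 ≤ j.val / m) := by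
      intro i j hij h
      obtain ⟨h1, h2⟩ := hcell i j hij
      by_contra hcon
      apply h
      unfold EC
      rw [← hK1]
      simp (disch := omega) only [if_neg]
    have gen : ∀ τ : Equiv.Perm (Fin (m * v)),
        (∀ i, i ∉ {i : Fin (m * v) | m * (x + k) ≤ i.val ∧ i.val < m * K1} → τ i = i) →
        ∀ i j : Fin (m * v), i < j → EC k N x (i.val / m) (j.val / m) ≠ 0 →
          τ i < τ j ∧ EC k N x ((τ i).val / m) ((τ j).val / m) =
            EC k N x (i.val / m) (j.val / m) := by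
      intro τ hτ i j hij h
      obtain ⟨h1, h2⟩ := hE1 i j hij h
      rw [hτ i (by rw [Set.mem_setOf_eq, le_iff hm, lt_iff hm]; omega),
        hτ j (by rw [Set.mem_setOf_eq, le_iff hm, lt_iff hm]; omega)]
      exact ⟨hij, rfl⟩
    refine GP_inv _ σ (gen σ hσ) (gen σ.symm fun i hi => ?_)
    rw [Equiv.symm_apply_eq]
    exact (hσ i hi).symm
  rw [e3]
  exact WZ_trans hA' hB

end Pool.Agent.N478.LT

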