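import Pool.Agent.N343.LT.Base

/-!
# LT/STEP, part 1: arithmetic of the clusters
-/

set_option autoImplicit false
set_option linter.all false

namespace Pool.Agent.N478.LT

open Finset Pool.Agent.N343.LT

def PC (k N x a b : ℕ) : ℕ :=
  if x ≤ a ∧ x ≤ b then (if a = b then 1 else eC (k * (N + 2)) k a b) else 0

def QC (k N x a b : ℕ) : ℕ :=
  if x + k ≤ a ∧ b < k * (N + 1) then 1
  else if a = b ∧ x ≤ a ∧ (b < x + k ∨ k * (N + 1) ≤ a) then 1
  else if x ≤ a ∧ a < x + k ∧ k * (N + 1) ≤ b then chM k N a (b - k * (N + 1))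
  else 0

def AC (k N x a b : ℕ) : ℕ := if a = x then (if a = b then 1 else eC (k * (N + 2)) k a b) else 0

def TC (k N x a b : ℕ) : ℕ :=
  (if a = x + k ∧ b = x + k then 1 else 0) +
  (if (x + k < a ∧ a < k * (N + 1)) ∧ (x + k < b ∧ b < k * (N + 1)) then 1 else 0) +
  (if a = x ∧ (x + k < b ∧ b < k * (N + 1)) then 1 else 0) +
  (if a = x + k ∧ k * (N + 1) ≤ b then chM k N (x + k) (b - k * (N + 1)) else 0)

def TG (k N x a b : ℕ) : ℕ :=
  (if a = x + k ∧ b = x + k then 1 else 0) +
  (if (x + k < a ∧ a < k * (N + 1)) ∧ (x + k < b ∧ b < k * (N + 1)) then 1 else 0) +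
  (if a = x + k ∧ (x + k < b ∧ b < k * (N + 1)) then 1 else 0) +
  (if a = x ∧ k * (N + 1) ≤ b then chM k N (x + k) (b - k * (N + 1)) else 0)

def EC (k N x a b : ℕ) : ℕ :=
  (if a = x ∧ b = x then 1 else 0) +
  (if a = x ∧ k * (N + 1) ≤ b ∧ b - k * (N + 1) < x then 1 else 0) +
  (if x < a ∧ a < x + k ∧ a = b then 1 else 0) +
  (if k * (N + 1) ≤ a ∧ a = b then 1 else 0) +
  (if x < a ∧ a < x + k ∧ k * (N + 1) ≤ b then chM k N a (b - k * (N + 1)) else 0)

section

variable {m k N x i j : ℕ}

theorem le_iff (hm : 0 < m) (c : ℕ) : m * c ≤ i ↔ c ≤ i / m := by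
  rw [Nat.le_div_iff_mul_le hm, mul_comm]

theorem lt_iff (hm : 0 < m) (c : ℕ) : i < m * c ↔ i / m < c := by
  rw [Nat.div_lt_iff_lt_mul hm, mul_comm]

theorem Pst_eq (hm : 0 < m) : Pst m k N x i j = PC k N x (i / m) (j / m) := by
  unfold Pst PC
  simp only [le_iff hm]

theorem Qst_eq (hm : 0 < m) : Qst m k N x i j = QC k N x (i / m) (j / m) := by
  unfold Qst QC
  simp only [le_iff hm, lt_iff hm]

theorem id1 {a b : ℕ} (hab : a ≤ b) : PC k N x a b = AC k N x a b + PC k N (x + 1) a b := by
  unfold PC AC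
  generalize eC (k * (N + 2)) k a b = e
  split_ifs <;> omega

theorem K_eq : k * (N + 1) = k * N + k := by ring

theorem K_eq2 : k * (N + 2) = k * N + 2 * k := by ring

theorem id2 {a b : ℕ} (hk : 0 < k) (hx : x < k * N) (hab : a ≤ b) (hb : b < k * (N + 2)) :
    AC k N x a b + QC k N (x + 1) a b = EC k N x a b + TC k N x a b := by
  unfold AC QC EC TC eC
  rw [K_eq2] at hb ⊢
  rw [K_eq]
  generalize k * N = K at *
  have ra : a < x ∨ a = x ∨ (x < a ∧ a < x + k) ∨ a = x + k ∨ (x + k < a ∧ a < K + k) ∨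
    K + k ≤ a := by omega
  have rb : b < x ∨ b = x ∨ (x < b ∧ b < x + k) ∨ b = x + k ∨ (x + k < b ∧ b < K + k) ∨
    K + k ≤ b := by omega
  have re : a = b ∨ a < b := by omega
  rcases ra with ra | ra | ra | ra | ra | ra <;> rcases rb with rb | rb | rb | rb | rb | rb <;>
    rcases re with re | re <;> first
    | (exfalso; omega)
    | (simp (disch := omega) only [if_pos, if_neg, zero_add, add_zero]; done)
    | (simp (disch := omega) only [if_pos, if_neg, zero_add, add_zero]; rw [ra]; done)
    | (simp (disch := omega) only [if_pos, if_neg, zero_add, add_zero]; split_ifs <;> omega)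

theorem chM_id (hk : 0 < k) (hx : x < k * N) (c : ℕ) (hc : c < k) :
    chM k N x c = (if c < x then 1 else 0) + chM k N (x + k) c := by
  unfold chM
  have hN : 0 < N := Nat.pos_of_ne_zero fun h => by
    rw [h] at hx
    omega
  have h1 : (x + k) / k = x / k + 1 := Nat.add_div_right x hk
  have h2 : (x + k) % k = x % k := Nat.add_mod_right x k
  rw [if_neg (show ¬ (x + k < k) by omega), h1, h2]
  by_cases hxk : x < k
  · rw [if_pos hxk, Nat.div_eq_of_lt hxk, Nat.mod_eq_of_lt hxk]
    split_ifs <;> omega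
  · rw [if_neg hxk, if_pos (show c < x by omega)]
    have h3 : x / k < N := by
      rw [Nat.div_lt_iff_lt_mul hk, mul_comm]
      exact hx
    omega

theorem id3 {a b : ℕ} (hk : 0 < k) (hx : x < k * N) (hab : a ≤ b) (hb : b < k * (N + 2)) :
    EC k N x a b + TG k N x a b = QC k N x a b := by
  have hid := chM_id hk hx (b - (k * N + k))
  unfold QC EC TG
  rw [K_eq2] at hb
  rw [K_eq]
  generalize k * N = K at *
  have ra : a < x ∨ a = x ∨ (x < a ∧ a < x + k) ∨ a = x + k ∨ (x + k < a ∧ a < K + k) ∨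
    K + k ≤ a := by omega
  have rb : b < x ∨ b = x ∨ (x < b ∧ b < x + k) ∨ b = x + k ∨ (x + k < b ∧ b < K + k) ∨
    K + k ≤ b := by omega
  have re : a = b ∨ a < b := by omega
  rcases ra with ra | ra | ra | ra | ra | ra <;> rcases rb with rb | rb | rb | rb | rb | rb <;>
    rcases re with re | re <;> first
    | (exfalso; omega)
    | (simp (disch := omega) only [if_pos, if_neg, zero_add, add_zero]; done)
    | (rw [ra] at *; rw [hid (by omega)]
       by_cases h : b - (K + k) < x <;>
        simp (disch := omega) only [if_pos, if_neg, zero_add, add_zero, true_and])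

theorem sum_div (g : ℕ → ℕ) (hm : 0 < m) (k : ℕ) :
    ∑ t ∈ range (m * k), g (t / m) = m * ∑ j ∈ range k, g j := by
  induction k with
  | zero => simp
  | succ k ih =>
    rw [Nat.mul_succ, sum_range_add, ih, sum_range_succ, mul_add]
    congr 1
    have : ∀ t ∈ range m, g ((m * k + t) / m) = g k := by
      intro t ht
      rw [mem_range] at ht
      rw [Nat.mul_add_div hm, Nat.div_eq_of_lt ht, add_zero]
    rw [sum_congr rfl this, sum_const, card_range, smul_eq_mul]

theorem sum_chM (hk : 0 < k) (hx : x < k * N) :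
    ∑ j ∈ range k, chM k N (x + k) j = k * N - x - 1 := by
  have h1 : (x + k) / k = x / k + 1 := Nat.add_div_right x hk
  have h2 : (x + k) % k = x % k := Nat.add_mod_right x k
  have h3 : ∀ j ∈ range k, chM k N (x + k) j = (N - (x / k + 1)) + if x % k < j then 1 else 0 := by
    intro j _
    unfold chM
    rw [if_neg (by omega), h1, h2]
  rw [sum_congr rfl h3, sum_add_distrib, sum_const, card_range, smul_eq_mul]
  have h4 : x / k < N := by
    rw [Nat.div_lt_iff_lt_mul hk, mul_comm]
    exact hx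
  have h5 : x % k < k := Nat.mod_lt x hk
  have h6 : ∑ j ∈ range k, (if x % k < j then 1 else 0) = k - 1 - x % k := by
    rw [← sum_filter, sum_const, smul_eq_mul, mul_one]
    have : (range k).filter (fun j => x % k < j) = Ioo (x % k) k := by
      ext j
      simp only [mem_filter, mem_range, mem_Ioo]
      omega
    rw [this, Nat.card_Ioo]
    omega
  rw [h6]
  have h7 : k * (x / k) + x % k = x := Nat.div_add_mod x k
  obtain ⟨d, hd⟩ : ∃ d, N = x / k + 1 + d := ⟨N - (x / k + 1), by omega⟩
  have h8 : N - (x / k + 1) = d := by omega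
  rw [h8]
  have h9 : k * N = k * (x / k) + k + k * d := by
    rw [hd]
    ring
  rw [h9]
  generalize k * (x / k) = q at *
  generalize k * d = e at *
  omega

end

end Pool.Agent.N478.LT
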